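import Pool.Agent.T6.H73.ThR.Defs

/-!
# Basic facts on formulas

Boundedness, invariance under inner automorphisms, change of variables, free variables.
-/

set_option autoImplicit false

open scoped InnerProductSpace

namespace Pool.Agent.T6.H73.ThR

variable (M : TVN)

namespace TVN

theorem opNorm_nonneg (x : M.E) : 0 ≤ M.opNorm x := norm_nonneg (E := M.H →L[ℂ] M.H) _

theorem opNorm_zero : M.opNorm 0 = 0 := norm_zero (E := M.H →L[ℂ] M.H)

theorem opNorm_one : M.opNorm 1 ≤ 1 := ContinuousLinearMap.norm_id_le (𝕜 := ℂ) (E := M.H)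

theorem opNorm_add (x y : M.E) : M.opNorm (x + y) ≤ M.opNorm x + M.opNorm y :=
  norm_add_le (E := M.H →L[ℂ] M.H) _ _

theorem opNorm_mul (x y : M.E) : M.opNorm (x * y) ≤ M.opNorm x * M.opNorm y :=
  norm_mul_le (α := M.H →L[ℂ] M.H) _ _

theorem opNorm_star (x : M.E) : M.opNorm (star x) = M.opNorm x :=
  norm_star (E := M.H →L[ℂ] M.H) x.1

theorem opNorm_smul (c : ℂ) (x : M.E) : M.opNorm (c • x) = ‖c‖ * M.opNorm x :=
  norm_smul (β := M.H →L[ℂ] M.H) _ _

theorem opNorm_sq (x : M.E) : M.opNorm (star x * x) = M.opNorm x * M.opNorm x :=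
  CStarRing.norm_star_mul_self (E := M.H →L[ℂ] M.H)

theorem opNorm_of_isometry {u : M.E} (hu : star u * u = 1) : M.opNorm u ≤ 1 := by
  have h1 := M.opNorm_sq u
  rw [hu] at h1
  have h2 := M.opNorm_one
  have h3 := M.opNorm_nonneg u
  nlinarith

theorem trace_bound : ∃ C : ℝ, 0 ≤ C ∧ ∀ x : M.E, ‖M.τ x‖ ≤ C * M.opNorm x := by
  obtain ⟨ξ, hs, hξ⟩ := M.normal
  refine ⟨∑' k, ‖ξ k‖ ^ 2, tsum_nonneg fun k => by positivity, fun x => ?_⟩
  have h1 : ∀ k, ‖⟪ξ k, (x : M.H →L[ℂ] M.H) (ξ k)⟫_ℂ‖ ≤ ‖ξ k‖ ^ 2 * M.opNorm x := by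
    intro k
    refine (norm_inner_le_norm _ _).trans ?_
    have h2 := (x : M.H →L[ℂ] M.H).le_opNorm (ξ k)
    have h3 := mul_le_mul_of_nonneg_left h2 (norm_nonneg (ξ k))
    refine h3.trans (le_of_eq ?_)
    unfold opNorm
    ring
  have h2 : Summable fun k => ‖ξ k‖ ^ 2 * M.opNorm x := hs.mul_right _
  rw [hξ, ← tsum_mul_right]
  have h3 : Summable fun k => ‖⟪ξ k, (x : M.H →L[ℂ] M.H) (ξ k)⟫_ℂ‖ :=
    Summable.of_nonneg_of_le (fun k => norm_nonneg _) h1 h2
  exact (norm_tsum_le_tsum_norm h3).trans (h3.tsum_le_tsum h1 h2)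

instance ball_nonempty (r : ℕ) : Nonempty (M.Ball r) :=
  ⟨⟨0, by rw [M.opNorm_zero]; positivity⟩⟩

end TVN

theorem Tm.bdd {V : Type} (t : Tm V) (R : ℝ) : ∃ C : ℝ, 0 ≤ C ∧
    ∀ x : V → M.E, (∀ v, M.opNorm (x v) ≤ R) → M.opNorm (t.ev M x) ≤ C := by
  induction t with
  | var v => exact ⟨|R|, abs_nonneg R, fun x h => (h v).trans (le_abs_self R)⟩
  | zero => exact ⟨0, le_rfl, fun x h => (M.opNorm_zero).le⟩
  | one => exact ⟨1, zero_le_one, fun x h => M.opNorm_one⟩
  | add s t hs ht =>
    obtain ⟨C, hC, hs⟩ := hs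
    obtain ⟨D, hD, ht⟩ := ht
    exact ⟨C + D, by positivity, fun x h =>
      (M.opNorm_add _ _).trans (add_le_add (hs x h) (ht x h))⟩
  | mul s t hs ht =>
    obtain ⟨C, hC, hs⟩ := hs
    obtain ⟨D, hD, ht⟩ := ht
    exact ⟨C * D, by positivity, fun x h =>
      (M.opNorm_mul _ _).trans (mul_le_mul (hs x h) (ht x h) (M.opNorm_nonneg _) hC)⟩
  | adj s hs =>
    obtain ⟨C, hC, hs⟩ := hs
    exact ⟨C, hC, fun x h => (M.opNorm_star _).le.trans (hs x h)⟩
  | scal p q s hs =>
    obtain ⟨C, hC, hs⟩ := hs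
    exact ⟨‖(p : ℂ) + (q : ℂ) * Complex.I‖ * C, by positivity, fun x h =>
      (M.opNorm_smul _ _).le.trans (mul_le_mul_of_nonneg_left (hs x h) (norm_nonneg _))⟩

theorem Fm.bdd {V : Type} (φ : Fm V) : ∀ R : ℝ, ∃ C : ℝ, 0 ≤ C ∧
    ∀ x : V → M.E, (∀ v, M.opNorm (x v) ≤ R) → |φ.ev M x| ≤ C := by
  obtain ⟨D, hD, hDtr⟩ := M.trace_bound
  induction φ with
  | re t =>
    intro R
    obtain ⟨C, hC, h⟩ := t.bdd M R
    exact ⟨D * C, by positivity, fun x hx =>
      (Complex.abs_re_le_norm _).trans ((hDtr _).trans (mul_le_mul_of_nonneg_left (h x hx) hD))⟩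
  | im t =>
    intro R
    obtain ⟨C, hC, h⟩ := t.bdd M R
    exact ⟨D * C, by positivity, fun x hx =>
      (Complex.abs_im_le_norm _).trans ((hDtr _).trans (mul_le_mul_of_nonneg_left (h x hx) hD))⟩
  | conn u φ ih =>
    intro R
    choose C hC h using fun i => ih i R
    have hK : IsCompact (Set.pi Set.univ fun i => Set.Icc (-C i) (C i)) :=
      isCompact_univ_pi fun i => isCompact_Icc
    obtain ⟨B, hB⟩ := hK.exists_bound_of_continuousOn u.continuous.continuousOn
    refine ⟨|B|, abs_nonneg _, fun x hx => ?_⟩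
    refine le_trans ?_ (le_abs_self B)
    exact hB _ fun i _ => abs_le.1 (h i x hx)
  | sup r φ ih =>
    intro R
    obtain ⟨C, hC, h⟩ := ih (max r R)
    refine ⟨C, hC, fun x hx => ?_⟩
    have h1 : ∀ y : M.Ball r, |φ.ev M (ext y.1 x)| ≤ C := by
      intro y
      apply h
      rintro (_ | v)
      · exact y.2.trans (le_max_left _ _)
      · exact (hx v).trans (le_max_right _ _)
    have h2 : BddAbove (Set.range fun y : M.Ball r => φ.ev M (ext y.1 x)) :=
      ⟨C, by rintro _ ⟨y, rfl⟩; exact (abs_le.1 (h1 y)).2⟩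
    have h0 : Nonempty (M.Ball r) := inferInstance
    obtain ⟨y0⟩ := h0
    rw [Fm.ev, abs_le]
    exact ⟨(abs_le.1 (h1 y0)).1.trans (le_ciSup h2 y0), ciSup_le fun y => (abs_le.1 (h1 y)).2⟩
  | inf r φ ih =>
    intro R
    obtain ⟨C, hC, h⟩ := ih (max r R)
    refine ⟨C, hC, fun x hx => ?_⟩
    have h1 : ∀ y : M.Ball r, |φ.ev M (ext y.1 x)| ≤ C := by
      intro y
      apply h
      rintro (_ | v)
      · exact y.2.trans (le_max_left _ _)
      · exact (hx v).trans (le_max_right _ _)
    have h2 : BddBelow (Set.range fun y : M.Ball r => φ.ev M (ext y.1 x)) :=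
      ⟨-C, by rintro _ ⟨y, rfl⟩; exact (abs_le.1 (h1 y)).1⟩
    have h0 : Nonempty (M.Ball r) := inferInstance
    obtain ⟨y0⟩ := h0
    rw [Fm.ev, abs_le]
    exact ⟨le_ciInf fun y => (abs_le.1 (h1 y)).1, (ciInf_le h2 y0).trans (abs_le.1 (h1 y0)).2⟩

/-! ### inner automorphisms -/

section Inner

variable {M} {u : M.E} (hu : star u * u = 1) (hu' : u * star u = 1)

include hu

theorem Tm.ev_conj' {V : Type} (t : Tm V) (x : V → M.E) (hu' : u * star u = 1) :
    t.ev M (fun v => u * x v * star u) = u * t.ev M x * star u := by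
  induction t with
  | var v => rfl
  | zero => simp [Tm.ev]
  | one => simp [Tm.ev, hu']
  | add s t hs ht => simp only [Tm.ev, hs, ht]; rw [mul_add, add_mul]
  | mul s t hs ht =>
    simp only [Tm.ev, hs, ht]
    calc u * s.ev M x * star u * (u * t.ev M x * star u)
        = u * s.ev M x * (star u * u) * (t.ev M x * star u) := by simp only [mul_assoc]
      _ = _ := by rw [hu, mul_one]; simp only [mul_assoc]
  | adj s hs =>
    simp only [Tm.ev]
    rw [hs]
    simp only [star_mul, star_star, mul_assoc]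
  | scal p q s hs => simp only [Tm.ev, hs, mul_smul_comm, smul_mul_assoc]

theorem TVN.trace_conj (x : M.E) : M.τ (u * x * star u) = M.τ x := by
  rw [M.tracial, ← mul_assoc, hu, one_mul]

omit hu in
theorem TVN.opNorm_conj_le (u x : M.E) (hu : star u * u = 1) :
    M.opNorm (u * x * star u) ≤ M.opNorm x := by
  have h1 := M.opNorm_mul (u * x) (star u)
  have h2 := M.opNorm_mul u x
  have h3 := M.opNorm_of_isometry hu
  have h4 := M.opNorm_star u
  have h5 := M.opNorm_nonneg x
  have h6 := M.opNorm_nonneg u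
  have h7 := M.opNorm_nonneg (u * x)
  rw [h4] at h1
  calc M.opNorm (u * x * star u) ≤ M.opNorm (u * x) * M.opNorm u := h1
    _ ≤ M.opNorm (u * x) * 1 := mul_le_mul_of_nonneg_left h3 h7
    _ = M.opNorm (u * x) := mul_one _
    _ ≤ M.opNorm u * M.opNorm x := h2
    _ ≤ 1 * M.opNorm x := mul_le_mul_of_nonneg_right h3 h5
    _ = _ := one_mul _

include hu'

/-- the permutation of the ball given by a unitary -/
noncomputable def ballConj (r : ℕ) : M.Ball r ≃ M.Ball r where
  toFun y := ⟨u * y.1 * star u, (TVN.opNorm_conj_le u y.1 hu).trans y.2⟩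
  invFun y := ⟨star u * y.1 * u, by
    have h := TVN.opNorm_conj_le (star u) y.1 (by rwa [star_star])
    rw [star_star] at h
    exact h.trans y.2⟩
  left_inv y := by
    apply Subtype.ext
    show star u * (u * y.1 * star u) * u = y.1
    calc star u * (u * y.1 * star u) * u = (star u * u) * y.1 * (star u * u) := by
          simp only [mul_assoc]
      _ = y.1 := by rw [hu, one_mul, mul_one]
  right_inv y := by
    apply Subtype.ext
    show u * (star u * y.1 * u) * star u = y.1
    calc u * (star u * y.1 * u) * star u = (u * star u) * y.1 * (u * star u) := by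
          simp only [mul_assoc]
      _ = y.1 := by rw [hu', one_mul, mul_one]

theorem Fm.ev_conj {V : Type} (φ : Fm V) (x : V → M.E) :
    φ.ev M (fun v => u * x v * star u) = φ.ev M x := by
  induction φ with
  | re t => simp only [Fm.ev]; rw [t.ev_conj' hu x hu', TVN.trace_conj hu]
  | im t => simp only [Fm.ev]; rw [t.ev_conj' hu x hu', TVN.trace_conj hu]
  | conn w φ ih => simp only [Fm.ev, ih]
  | sup r φ ih =>
    simp only [Fm.ev]
    rw [← (ballConj hu hu' r).iSup_comp]
    refine iSup_congr fun y => ?_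
    rw [← ih (ext y.1 x)]
    congr 1
    funext o
    cases o <;> rfl
  | inf r φ ih =>
    simp only [Fm.ev]
    rw [← (ballConj hu hu' r).iInf_comp]
    refine iInf_congr fun y => ?_
    rw [← ih (ext y.1 x)]
    congr 1
    funext o
    cases o <;> rfl

end Inner

/-! ### change of variables -/

/-- rename the variables -/
def Tm.ren {V W : Type} (g : V → W) : Tm V → Tm W
  | .var v => .var (g v)
  | .zero => .zero
  | .one => .one
  | .add s t => .add (s.ren g) (t.ren g)
  | .mul s t => .mul (s.ren g) (t.ren g)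
  | .adj s => .adj (s.ren g)
  | .scal p q s => .scal p q (s.ren g)

/-- rename the free variables -/
def Fm.ren : {V : Type} → Fm V → {W : Type} → (V → W) → Fm W
  | _, .re t, _, g => .re (t.ren g)
  | _, .im t, _, g => .im (t.ren g)
  | _, .conn u φ, _, g => .conn u fun i => (φ i).ren g
  | _, .sup r φ, _, g => .sup r (φ.ren (Option.map g))
  | _, .inf r φ, _, g => .inf r (φ.ren (Option.map g))

theorem Tm.ev_ren {V W : Type} (g : V → W) (t : Tm V) (x : W → M.E) :
    (t.ren g).ev M x = t.ev M (fun v => x (g v)) := by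
  induction t with
  | var v => rfl
  | zero => rfl
  | one => rfl
  | add s t hs ht => simp only [Tm.ren, Tm.ev, hs, ht]
  | mul s t hs ht => simp only [Tm.ren, Tm.ev, hs, ht]
  | adj s hs => simp only [Tm.ren, Tm.ev, hs]
  | scal p q s hs => simp only [Tm.ren, Tm.ev, hs]

theorem ext_map {X V W : Type} (g : V → W) (a : X) (x : W → X) :
    (fun o => ext a x (Option.map g o)) = ext a (fun v => x (g v)) := by
  funext o; cases o <;> rfl

theorem Fm.ev_ren {V : Type} (φ : Fm V) : ∀ {W : Type} (g : V → W) (x : W → M.E),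
    (φ.ren g).ev M x = φ.ev M (fun v => x (g v)) := by
  induction φ with
  | re t => intro W g x; simp only [Fm.ren, Fm.ev, Tm.ev_ren]
  | im t => intro W g x; simp only [Fm.ren, Fm.ev, Tm.ev_ren]
  | conn u φ ih => intro W g x; simp only [Fm.ren, Fm.ev, ih]
  | sup r φ ih => intro W g x; simp only [Fm.ren, Fm.ev, ih, ext_map]
  | inf r φ ih => intro W g x; simp only [Fm.ren, Fm.ev, ih, ext_map]

/-! ### free variables -/

/-- the variables of a term -/
def Tm.fv {V : Type} : Tm V → Set V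
  | .var v => {v}
  | .zero => ∅
  | .one => ∅
  | .add s t => s.fv ∪ t.fv
  | .mul s t => s.fv ∪ t.fv
  | .adj s => s.fv
  | .scal _ _ s => s.fv

/-- the free variables of a formula -/
def Fm.fv : {V : Type} → Fm V → Set V
  | _, .re t => t.fv
  | _, .im t => t.fv
  | _, .conn _ φ => ⋃ i, (φ i).fv
  | _, .sup _ φ => {v | some v ∈ φ.fv}
  | _, .inf _ φ => {v | some v ∈ φ.fv}

theorem Tm.fv_finite {V : Type} (t : Tm V) : t.fv.Finite := by
  induction t with
  | var v => exact Set.finite_singleton v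
  | zero => exact Set.finite_empty
  | one => exact Set.finite_empty
  | add s t hs ht => exact hs.union ht
  | mul s t hs ht => exact hs.union ht
  | adj s hs => exact hs
  | scal p q s hs => exact hs

theorem Fm.fv_finite {V : Type} (φ : Fm V) : φ.fv.Finite := by
  induction φ with
  | re t => exact t.fv_finite
  | im t => exact t.fv_finite
  | conn u φ ih => exact Set.finite_iUnion ih
  | sup r φ ih => exact ih.preimage (Option.some_injective _).injOn
  | inf r φ ih => exact ih.preimage (Option.some_injective _).injOn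

theorem Tm.ev_congr {V : Type} (t : Tm V) (x y : V → M.E) (h : ∀ v ∈ t.fv, x v = y v) :
    t.ev M x = t.ev M y := by
  induction t with
  | var v => exact h v rfl
  | zero => rfl
  | one => rfl
  | add s t hs ht =>
    simp only [Tm.ev]
    rw [hs fun v hv => h v (Or.inl hv), ht fun v hv => h v (Or.inr hv)]
  | mul s t hs ht =>
    simp only [Tm.ev]
    rw [hs fun v hv => h v (Or.inl hv), ht fun v hv => h v (Or.inr hv)]
  | adj s hs => simp only [Tm.ev]; rw [hs h]
  | scal p q s hs => simp only [Tm.ev]; rw [hs h]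

theorem Fm.ev_congr {V : Type} (φ : Fm V) : ∀ (x y : V → M.E), (∀ v ∈ φ.fv, x v = y v) →
    φ.ev M x = φ.ev M y := by
  induction φ with
  | re t => intro x y h; simp only [Fm.ev]; rw [t.ev_congr M x y h]
  | im t => intro x y h; simp only [Fm.ev]; rw [t.ev_congr M x y h]
  | conn u φ ih =>
    intro x y h
    simp only [Fm.ev]
    congr 1
    funext i
    exact ih i x y fun v hv => h v (Set.mem_iUnion.2 ⟨i, hv⟩)
  | sup r φ ih =>
    intro x y h
    simp only [Fm.ev]
    refine iSup_congr fun z => ih _ _ ?_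
    rintro (_ | v) hv
    · rfl
    · exact h v hv
  | inf r φ ih =>
    intro x y h
    simp only [Fm.ev]
    refine iInf_congr fun z => ih _ _ ?_
    rintro (_ | v) hv
    · rfl
    · exact h v hv

theorem Tm.fv_ren {V W : Type} (g : V → W) (t : Tm V) : (t.ren g).fv ⊆ g '' t.fv := by
  induction t with
  | var v => rintro _ rfl; exact ⟨v, rfl, rfl⟩
  | zero => exact Set.empty_subset _
  | one => exact Set.empty_subset _
  | add s t hs ht =>
    rintro w (h | h)
    · obtain ⟨v, hv, e⟩ := hs h; exact ⟨v, Or.inl hv, e⟩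
    · obtain ⟨v, hv, e⟩ := ht h; exact ⟨v, Or.inr hv, e⟩
  | mul s t hs ht =>
    rintro w (h | h)
    · obtain ⟨v, hv, e⟩ := hs h; exact ⟨v, Or.inl hv, e⟩
    · obtain ⟨v, hv, e⟩ := ht h; exact ⟨v, Or.inr hv, e⟩
  | adj s hs => exact hs
  | scal p q s hs => exact hs

theorem Fm.fv_ren {V : Type} (φ : Fm V) : ∀ {W : Type} (g : V → W),
    (φ.ren g).fv ⊆ g '' φ.fv := by
  induction φ with
  | re t => intro W g; exact t.fv_ren g
  | im t => intro W g; exact t.fv_ren g
  | conn u φ ih =>
    intro W g w hw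
    obtain ⟨i, hi⟩ := Set.mem_iUnion.1 hw
    obtain ⟨v, hv, e⟩ := ih i g hi
    exact ⟨v, Set.mem_iUnion.2 ⟨i, hv⟩, e⟩
  | sup r φ ih =>
    intro W g w hw
    obtain ⟨o, ho, e⟩ := ih (Option.map g) hw
    cases o with
    | none => exact absurd e (by simp)
    | some v => exact ⟨v, ho, Option.some_injective _ e⟩
  | inf r φ ih =>
    intro W g w hw
    obtain ⟨o, ho, e⟩ := ih (Option.map g) hw
    cases o with
    | none => exact absurd e (by simp)
    | some v => exact ⟨v, ho, Option.some_injective _ e⟩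

end Pool.Agent.T6.H73.ThR
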