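import Pool.Agent.T6.H73.ThR.Main

/-!
# From structures to bundled tracial von Neumann algebras
-/

set_option autoImplicit false

open scoped InnerProductSpace

namespace Pool.Agent.T6.H73.ThR

/-- the structure of a tracial von Neumann algebra -/
noncomputable def str (T : TVN) : Str where
  carrier := T.E
  zero := 0
  one := 1
  add x y := x + y
  mul x y := x * y
  adj x := star x
  scal c x := c • x
  nrm x := T.opNorm x
  tr x := T.τ x

section

variable {H : Type} [NormedAddCommGroup H] [InnerProductSpace ℂ H] [CompleteSpace H]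

theorem summable_inner (ξ : ℕ → H) (hs : Summable (fun k => ‖ξ k‖ ^ 2)) (x : H →L[ℂ] H) :
    Summable (fun k => ⟪ξ k, x (ξ k)⟫_ℂ) := by
  refine Summable.of_norm_bounded (hs.mul_left ‖x‖) fun k => ?_
  refine (norm_inner_le_norm _ _).trans ?_
  have h1 := x.le_opNorm (ξ k)
  have h2 := norm_nonneg (ξ k)
  nlinarith

/-- the functional -/
noncomputable def tauOf (N : VonNeumannAlgebra H) (ξ : ℕ → H)
    (hs : Summable (fun k => ‖ξ k‖ ^ 2)) : N.toStarSubalgebra →ₗ[ℂ] ℂ where
  toFun x := ∑' k, ⟪ξ k, (x : H →L[ℂ] H) (ξ k)⟫_ℂ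
  map_add' x y := by
    rw [← (summable_inner ξ hs x).tsum_add (summable_inner ξ hs y)]
    refine tsum_congr fun k => ?_
    rw [← inner_add_right]
    rfl
  map_smul' c x := by
    rw [RingHom.id_apply, smul_eq_mul, ← tsum_mul_left]
    refine tsum_congr fun k => ?_
    rw [← inner_smul_right]
    rfl

end

theorem exists_tvn (M : Str) (h : M.IsTVN) : ∃ T : TVN, M = str T := by
  obtain ⟨H, i1, i2, i3, N, ξ, hs, rfl, h1, h2, h3⟩ := h
  exact ⟨{ H := H, N := N, τ := tauOf N ξ hs, map_one := h1, tracial := h2, faithful := h3,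
            normal := ⟨ξ, hs, fun x => rfl⟩ }, rfl⟩

theorem Tm.val_str (T : TVN) {V : Type} (x : V → T.E) (t : Tm V) :
    t.val (str T) x = t.ev T x := by
  induction t with
  | var v => rfl
  | zero => rfl
  | one => rfl
  | add s t hs ht => simp only [Tm.val, Tm.ev, hs, ht]; rfl
  | mul s t hs ht => simp only [Tm.val, Tm.ev, hs, ht]; rfl
  | adj s hs => simp only [Tm.val, Tm.ev, hs]; rfl
  | scal p q s hs => simp only [Tm.val, Tm.ev, hs]; rfl

theorem Fm.val_str (T : TVN) {V : Type} (φ : Fm V) : ∀ x : V → T.E,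
    φ.val (str T) x = φ.ev T x := by
  induction φ with
  | re t => intro x; simp only [Fm.val, Fm.ev, Tm.val_str]; rfl
  | im t => intro x; simp only [Fm.val, Fm.ev, Tm.val_str]; rfl
  | conn u φ ih =>
    intro x
    simp only [Fm.val, Fm.ev]
    congr 1
    funext i
    exact ih i x
  | sup r φ ih =>
    intro x
    simp only [Fm.val, Fm.ev]
    exact iSup_congr fun y => ih _
  | inf r φ ih =>
    intro x
    simp only [Fm.val, Fm.ev]
    exact iInf_congr fun y => ih _

theorem sub_eq (T : TVN) (x y : T.E) : (str T).sub x y = x - y := by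
  show x + (-1 : ℂ) • y = x - y
  rw [neg_one_smul, sub_eq_add_neg]

/-- the homomorphism from the `2 × 2` matrices given by matrix units -/
noncomputable def muHom (M : TVN) (e : Fin 2 → Fin 2 → M.E) (h : (str M).IsMatrixUnits e) :
    M2 →⋆ₐ[ℂ] M.E := by
  have hmul : ∀ a b c d, e a b * e c d = if b = c then e a d else 0 := h.mul
  have hadj : ∀ a b, star (e a b) = e b a := h.adj
  have hone : e 0 0 + e 1 1 = 1 := h.one
  refine
  { toFun := fun m => m 0 0 • e 0 0 + m 0 1 • e 0 1 + m 1 0 • e 1 0 + m 1 1 • e 1 1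
    map_one' := ?_
    map_mul' := ?_
    map_zero' := ?_
    map_add' := ?_
    commutes' := ?_
    map_star' := ?_ }
  · simp [hone]
  · intro m n
    simp only [Matrix.mul_apply, Fin.sum_univ_two, mul_add, add_mul, smul_mul_smul_comm, hmul]
    simp
    module
  · simp
  · intro m n
    simp only [Matrix.add_apply]
    module
  · intro c
    rw [Algebra.algebraMap_eq_smul_one, Algebra.algebraMap_eq_smul_one, ← hone]
    simp
  · intro m
    simp only [Matrix.star_apply, star_add, star_smul, hadj]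
    abel

theorem muHom_apply (M : TVN) (e : Fin 2 → Fin 2 → M.E) (h : (str M).IsMatrixUnits e) (m : M2) :
    muHom M e h m = m 0 0 • e 0 0 + m 0 1 • e 0 1 + m 1 0 • e 1 0 + m 1 1 • e 1 1 := rfl

theorem exists_hom (M : TVN) (e : ℕ → Fin 2 → Fin 2 → M.E) (h : (str M).IsCommutingUnits e) :
    ∃ j : ℕ → (M2 →⋆ₐ[ℂ] M.E), ∀ k l, k ≠ l → ∀ a b, j k a * j l b = j l b * j k a := by
  have hc : ∀ k l, k ≠ l → ∀ a b c d, e k a b * e l c d = e l c d * e k a b := h.2
  refine ⟨fun k => muHom M (e k) (h.1 k), fun k l hkl x y => ?_⟩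
  simp only [muHom_apply, mul_add, add_mul, smul_mul_smul_comm, hc k l hkl]
  module

theorem main' (M C : Str) (hM : M.IsTVN) (hC : C.IsTVN)
    (h : ∃ e, M.IsCommutingUnits e) (hE : C.ElemEq M) (hsat : C.IsSaturated (Cardinal.aleph 2)) :
    ∃ (B : Set C.carrier) (a : C.carrier), Cardinal.mk B ≤ Cardinal.aleph 1 ∧ C.nrm a ≤ 1 ∧
      ∀ A ⊆ B, C.IsSeparableSet A → C.Divides a B A := by
  obtain ⟨S, rfl⟩ := exists_tvn M hM
  obtain ⟨T, rfl⟩ := exists_tvn C hC
  obtain ⟨e, he⟩ := h
  obtain ⟨j, hj⟩ := exists_hom S e he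
  have hE' : T.ElemEq S := by
    intro φ
    have h1 := hE φ
    have h2 := Fm.val_str T φ Empty.elim
    have h3 := Fm.val_str S φ Empty.elim
    rw [← h2, ← h3]
    exact h1
  have hsat' : T.IsSaturated (Cardinal.aleph 2) := by
    intro V hV x r P hP
    obtain ⟨a, ha⟩ := hsat V hV x r P (by
      intro F hF ε hε
      obtain ⟨a, ha⟩ := hP F hF ε hε
      exact ⟨a, fun φ hφ => by
        have h1 := ha φ hφ
        rwa [← Fm.val_str] at h1⟩)
    exact ⟨a, fun φ hφ => by
      have h1 := ha φ hφ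
      rw [← Fm.val_str]
      exact h1⟩
  obtain ⟨B, a, h1, h2, h3⟩ := main S T j hj hE' hsat'
  refine ⟨B, a, h1, h2, fun A hA hsep => ?_⟩
  obtain ⟨D, hD1, hD2, hD3⟩ := hsep
  obtain ⟨b, hb1, hb2, hb3⟩ := h3 A hA ⟨D, hD1, hD2, fun c hc ε hε => by
    obtain ⟨d, hd, hd2⟩ := hD3 c hc ε hε
    refine ⟨d, hd, ?_⟩
    rw [sub_eq] at hd2
    exact hd2⟩
  refine ⟨b, hb1, ?_, ?_⟩
  · intro m φ e e' he he'
    have h4 := hb2 m φ e e' he he'
    rw [← Fm.val_str, ← Fm.val_str] at h4
    exact h4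
  · rintro ⟨x, hx⟩
    refine hb3 ⟨x, fun k φ => ?_⟩
    rw [← Fm.val_str, ← Fm.val_str]
    exact hx k φ

end Pool.Agent.T6.H73.ThR
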