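import Pool.Agent.T6.H73.ThR.SDefs

/-!
# Bundled tracial von Neumann algebras

The same notions for bundled tracial von Neumann algebras (used in the proofs).
-/

set_option autoImplicit false

open scoped InnerProductSpace

namespace Pool.Agent.T6.H73.ThR

/-- A tracial von Neumann algebra: a von Neumann algebra `N` on a Hilbert space `H` with a faithful
normal tracial state `τ`. (Normal: `τ` is a countable sum of vector functionals.) -/
structure TVN where
  /-- the Hilbert space -/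
  H : Type
  [i1 : NormedAddCommGroup H]
  [i2 : InnerProductSpace ℂ H]
  [i3 : CompleteSpace H]
  /-- the von Neumann algebra -/
  N : VonNeumannAlgebra H
  /-- the trace -/
  τ : N.toStarSubalgebra →ₗ[ℂ] ℂ
  map_one : τ 1 = 1
  tracial : ∀ x y, τ (x * y) = τ (y * x)
  faithful : ∀ x, τ (star x * x) = 0 → x = 0
  normal : ∃ ξ : ℕ → H, Summable (fun k => ‖ξ k‖ ^ 2) ∧
    ∀ x : N.toStarSubalgebra, τ x = ∑' k, ⟪ξ k, (x : H →L[ℂ] H) (ξ k)⟫_ℂ

attribute [instance] TVN.i1 TVN.i2 TVN.i3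

namespace TVN

/-- The elements of a tracial von Neumann algebra. -/
abbrev E (M : TVN) : Type := M.N.toStarSubalgebra

/-- The operator norm. -/
noncomputable def opNorm (M : TVN) (x : M.E) : ℝ := ‖(x : M.H →L[ℂ] M.H)‖

/-- The 2-norm `‖x‖₂ = τ(x* x)^{1/2}`. -/
noncomputable def norm2 (M : TVN) (x : M.E) : ℝ := Real.sqrt (M.τ (star x * x)).re

/-- The closed ball of radius `r` for the operator norm. -/
abbrev Ball (M : TVN) (r : ℕ) : Type := {x : M.E // M.opNorm x ≤ r}

end TVN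

/-- The value of a term when the variable `v` has the value `x v`. -/
noncomputable def Tm.ev (M : TVN) {V : Type} (x : V → M.E) : Tm V → M.E
  | .var v => x v
  | .zero => 0
  | .one => 1
  | .add s t => s.ev M x + t.ev M x
  | .mul s t => s.ev M x * t.ev M x
  | .adj s => star (s.ev M x)
  | .scal p q s => ((p : ℂ) + (q : ℂ) * Complex.I) • s.ev M x

/-- The value of a formula in `M` when its free variables `v` have the values `x v`. -/
noncomputable def Fm.ev (M : TVN) : {V : Type} → Fm V → (V → M.E) → ℝ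
  | _, .re t, x => (M.τ (t.ev M x)).re
  | _, .im t, x => (M.τ (t.ev M x)).im
  | _, .conn u φ, x => u fun i => (φ i).ev M x
  | _, .sup r φ, x => ⨆ y : M.Ball r, φ.ev M (ext y.1 x)
  | _, .inf r φ, x => ⨅ y : M.Ball r, φ.ev M (ext y.1 x)

namespace TVN

/-- Elementary equivalence. -/
def ElemEq (M N : TVN) : Prop := ∀ φ : Fm Empty, φ.ev M Empty.elim = φ.ev N Empty.elim

/-- `κ`-saturation. -/
def IsSaturated (M : TVN) (κ : Cardinal) : Prop :=
  ∀ (V : Type), Cardinal.mk V < κ → ∀ (x : V → M.E) (r : ℕ) (S : Set (Fm (Option V))),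
    (∀ F : Finset (Fm (Option V)), (F : Set (Fm (Option V))) ⊆ S → ∀ ε : ℝ, 0 < ε →
      ∃ a : M.Ball r, ∀ φ ∈ F, |φ.ev M (ext a.1 x)| ≤ ε) →
    ∃ a : M.Ball r, ∀ φ ∈ S, φ.ev M (ext a.1 x) = 0

/-- Indiscernible sequences. -/
def IsIndiscernible (M : TVN) {I : Type} (A : Set M.E) (b : ℕ → I → M.E) : Prop :=
  ∀ (m : ℕ) (φ : Fm ((Fin m × I) ⊕ A)) (e e' : Fin m → ℕ), StrictMono e → StrictMono e' →
    φ.ev M (Sum.elim (fun p => b (e p.1) p.2) (fun c => c.1)) =
    φ.ev M (Sum.elim (fun p => b (e' p.1) p.2) (fun c => c.1))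

/-- The complete type `tp(a / B)` divides over `A`. -/
def Divides (M : TVN) (a : M.E) (B A : Set M.E) : Prop :=
  ∃ b : ℕ → B → M.E, (∀ y : B, b 0 y = y.1) ∧ M.IsIndiscernible A b ∧
    ¬ ∃ x : M.E, ∀ (k : ℕ) (φ : Fm (Option B)),
      φ.ev M (ext x (b k)) = φ.ev M (ext a (fun y => y.1))

/-- `A` has a countable 2-norm dense subset. -/
def IsSeparableSet (M : TVN) (A : Set M.E) : Prop :=
  ∃ D : Set M.E, D ⊆ A ∧ D.Countable ∧ ∀ a ∈ A, ∀ ε : ℝ, 0 < ε → ∃ d ∈ D, M.norm2 (a - d) < ε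

end TVN

end Pool.Agent.T6.H73.ThR
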