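import Pool.Agent.T6.H73.ThR.Basic

/-!
# Realisation of limits of types in saturated models
-/

set_option autoImplicit false

open Filter Topology

namespace Pool.Agent.T6.H73.ThR

/-- the formula `φ - L` -/
def Fm.shift {V : Type} (L : ℝ) (φ : Fm V) : Fm V :=
  .conn (k := 1) ⟨fun x => x 0 - L, by fun_prop⟩ (fun _ => φ)

/-- the sum of the absolute values -/
def Fm.sumAbs {V : Type} : List (Fm V) → Fm V
  | [] => .conn (k := 0) ⟨fun _ => 0, by fun_prop⟩ Fin.elim0
  | φ :: l => .conn (k := 2) ⟨fun x => |x 0| + x 1, by fun_prop⟩ ![φ, Fm.sumAbs l]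

theorem Fm.ev_shift (M : TVN) {V : Type} (L : ℝ) (φ : Fm V) (x : V → M.E) :
    (φ.shift L).ev M x = φ.ev M x - L := rfl

theorem Fm.ev_sumAbs (M : TVN) {V : Type} (l : List (Fm V)) (x : V → M.E) :
    (Fm.sumAbs l).ev M x = (l.map fun φ => |φ.ev M x|).sum := by
  induction l with
  | nil => rfl
  | cons φ l ih =>
    rw [List.map_cons, List.sum_cons, ← ih]
    rfl

theorem Fm.fv_shift {V : Type} (L : ℝ) (φ : Fm V) : (φ.shift L).fv ⊆ φ.fv := by
  intro v hv
  obtain ⟨i, hi⟩ := Set.mem_iUnion.1 hv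
  exact hi

theorem Fm.fv_sumAbs {V : Type} (l : List (Fm V)) {v : V} (hv : v ∈ (Fm.sumAbs l).fv) :
    ∃ φ ∈ l, v ∈ φ.fv := by
  induction l with
  | nil =>
    obtain ⟨i, hi⟩ := Set.mem_iUnion.1 hv
    exact i.elim0
  | cons φ l ih =>
    obtain ⟨i, hi⟩ := Set.mem_iUnion.1 hv
    fin_cases i
    · exact ⟨φ, List.mem_cons_self, hi⟩
    · obtain ⟨ψ, hψ, h⟩ := ih hi
      exact ⟨ψ, List.mem_cons_of_mem _ hψ, h⟩

theorem Fm.sumAbs_nonneg (M : TVN) {V : Type} (l : List (Fm V)) (x : V → M.E) :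
    0 ≤ (Fm.sumAbs l).ev M x := by
  rw [Fm.ev_sumAbs]
  apply List.sum_nonneg
  intro r hr
  obtain ⟨φ, -, rfl⟩ := List.mem_map.1 hr
  exact abs_nonneg _

theorem Fm.le_sumAbs (M : TVN) {V : Type} (l : List (Fm V)) (x : V → M.E) {φ : Fm V}
    (hφ : φ ∈ l) : |φ.ev M x| ≤ (Fm.sumAbs l).ev M x := by
  rw [Fm.ev_sumAbs]
  refine List.single_le_sum ?_ _ (List.mem_map.2 ⟨φ, hφ, rfl⟩)
  intro r hr
  obtain ⟨ψ, -, rfl⟩ := List.mem_map.1 hr
  exact abs_nonneg _

/-- The value of `inf_{‖a‖ ≤ r} ∑ |φ|` is at most the value at a point. -/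
theorem Fm.inf_sumAbs_le (M : TVN) {V : Type} (r : ℕ) (l : List (Fm (Option V))) (x : V → M.E)
    (a : M.Ball r) : (Fm.inf r (Fm.sumAbs l)).ev M x ≤ (Fm.sumAbs l).ev M (ext a.1 x) :=
  ciInf_le ⟨0, by rintro _ ⟨y, rfl⟩; exact Fm.sumAbs_nonneg M l _⟩ a

theorem Fm.exists_of_inf_lt (M : TVN) {V : Type} (r : ℕ) (l : List (Fm (Option V)))
    (x : V → M.E) (ε : ℝ) (h : (Fm.inf r (Fm.sumAbs l)).ev M x < ε) :
    ∃ a : M.Ball r, ∀ φ ∈ l, |φ.ev M (ext a.1 x)| ≤ ε := by
  obtain ⟨a, ha⟩ := exists_lt_of_ciInf_lt (show (⨅ y : M.Ball r,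
    (Fm.sumAbs l).ev M (ext y.1 x)) < ε from h)
  exact ⟨a, fun φ hφ => (Fm.le_sumAbs M l _ hφ).trans ha.le⟩

section Limit

variable {S I : Type} (M C : TVN) (v : S → I → M.E) (U : Ultrafilter S)

/-- The values of all formulas with free variables in `J` at `f` are the limits of the values at
`v s`. -/
def Good (J : Set I) (f : I → C.E) : Prop :=
  ∀ φ : Fm I, φ.fv ⊆ J → Tendsto (fun s => φ.ev M (v s)) U (𝓝 (φ.ev C f))

variable {M C v U}

theorem good_empty (h : C.ElemEq M) (f : I → C.E) : Good M C v U ∅ f := by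
  intro φ hφ
  have hφ' : ∀ w : I, w ∉ φ.fv := fun w hw => hφ hw
  have key : ∀ (N : TVN) (g : I → N.E),
      (Fm.inf 0 (φ.ren fun _ => (none : Option Empty))).ev N Empty.elim = φ.ev N g := by
    intro N g
    have h1 : ∀ y : N.Ball 0, (φ.ren fun _ => (none : Option Empty)).ev N (ext y.1 Empty.elim) =
        φ.ev N g := by
      intro y
      rw [Fm.ev_ren]
      exact φ.ev_congr N _ _ fun w hw => absurd hw (hφ' w)
    show (⨅ y : N.Ball 0, (φ.ren fun _ => (none : Option Empty)).ev N (ext y.1 Empty.elim)) = _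
    simp only [h1]
    exact ciInf_const
  have h2 : ∀ s, φ.ev M (v s) = φ.ev C f := by
    intro s
    rw [← key M (v s), ← key C f]
    exact (h _).symm
  simp only [h2]
  exact tendsto_const_nhds

theorem exists_limit (hv : ∀ s i, M.opNorm (v s i) ≤ 1) (φ : Fm I) :
    ∃ L : ℝ, Tendsto (fun s => φ.ev M (v s)) U (𝓝 L) := by
  obtain ⟨D, hD, h⟩ := φ.bdd M 1
  have h1 : IsCompact (Set.Icc (-D) D) := isCompact_Icc
  obtain ⟨L, -, hL⟩ := h1.ultrafilter_le_nhds (U.map fun s => φ.ev M (v s)) (by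
    rw [le_principal_iff, Ultrafilter.coe_map]
    exact Filter.mem_map.2 (Filter.univ_mem' fun s => abs_le.1 (h (v s) (hv s))))
  exact ⟨L, hL⟩

/-- one more element -/
theorem good_insert (hv : ∀ s i, M.opNorm (v s i) ≤ 1) {κ : Cardinal} (hsat : C.IsSaturated κ)
    (hI : Cardinal.mk I < κ) {J : Set I} {f : I → C.E} (hf : Good M C v U J f) (i : I)
    (hi : i ∉ J) :
    ∃ a : C.E, C.opNorm a ≤ 1 ∧ ∃ g : I → C.E, g i = a ∧ (∀ j, j ≠ i → g j = f j) ∧
      Good M C v U (insert i J) g := by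
  classical
  choose L hL using fun φ : Fm I => exists_limit (U := U) hv φ
  let ρ : I → Option I := fun j => if j = i then none else some j
  let T : Set (Fm (Option I)) :=
    {ψ | ∃ φ : Fm I, φ.fv ⊆ insert i J ∧ ψ = (φ.ren ρ).shift (L φ)}
  have hρM : ∀ s, (fun j => ext (v s i) (v s) (ρ j)) = v s := by
    intro s
    funext j
    by_cases hj : j = i
    · simp [ρ, hj, ext]
    · simp [ρ, hj, ext]
  obtain ⟨a, ha⟩ := hsat I hI f 1 T (by
    intro F hF ε hε
    have hfv : (Fm.inf 1 (Fm.sumAbs F.toList)).fv ⊆ J := by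
      intro w hw
      obtain ⟨ψ, hψ, hw'⟩ := Fm.fv_sumAbs F.toList (v := some w) hw
      obtain ⟨φ, hφ, rfl⟩ := hF (Finset.mem_toList.1 hψ)
      obtain ⟨j, hj, hj2⟩ := Fm.fv_ren φ ρ (Fm.fv_shift _ _ hw')
      have hji : j ≠ i := by
        rintro rfl
        simp [ρ] at hj2
      have hjw : j = w := by
        simp only [ρ, if_neg hji] at hj2
        exact Option.some_injective _ hj2
      rw [← hjw]
      exact Set.mem_of_mem_insert_of_ne (hφ hj) hji
    have h1 := hf _ hfv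
    have h2 : Tendsto (fun s => (Fm.sumAbs F.toList).ev M (ext (v s i) (v s))) U (𝓝 0) := by
      simp only [Fm.ev_sumAbs]
      have h3 : ∀ l : List (Fm (Option I)), (∀ ψ ∈ l, ψ ∈ T) →
          Tendsto (fun s => (l.map fun ψ => |ψ.ev M (ext (v s i) (v s))|).sum) U (𝓝 0) := by
        intro l
        induction l with
        | nil => intro _; simp
        | cons ψ l ih =>
          intro hl
          simp only [List.map_cons, List.sum_cons]
          have h4 := ih fun ψ' hψ' => hl ψ' (List.mem_cons_of_mem _ hψ')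
          obtain ⟨φ, hφ, rfl⟩ := hl ψ List.mem_cons_self
          have h5 : Tendsto (fun s => |((φ.ren ρ).shift (L φ)).ev M (ext (v s i) (v s))|) U
              (𝓝 |L φ - L φ|) := by
            simp only [Fm.ev_shift, Fm.ev_ren, hρM]
            exact ((hL φ).sub_const _).abs
          rw [sub_self, abs_zero] at h5
          simpa using h5.add h4
      exact h3 _ fun ψ hψ => hF (Finset.mem_toList.1 hψ)
    have h3 : (Fm.inf 1 (Fm.sumAbs F.toList)).ev C f ≤ 0 := by
      refine le_of_tendsto_of_tendsto' h1 h2 fun s => ?_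
      exact Fm.inf_sumAbs_le M 1 F.toList (v s) ⟨v s i, by simpa using hv s i⟩
    obtain ⟨a, ha⟩ := Fm.exists_of_inf_lt C 1 F.toList f ε (h3.trans_lt hε)
    exact ⟨a, fun φ hφ => ha φ (Finset.mem_toList.2 hφ)⟩)
  refine ⟨a.1, by simpa using a.2, fun j => ext a.1 f (ρ j), by simp [ρ, ext],
    fun j hj => by simp [ρ, hj, ext], ?_⟩
  intro φ hφ
  have h1 := ha _ ⟨φ, hφ, rfl⟩
  rw [Fm.ev_shift, Fm.ev_ren, sub_eq_zero] at h1
  rw [h1]
  exact hL φ

/-- The limit type is realised. -/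
theorem exists_good (hE : C.ElemEq M) (hv : ∀ s i, M.opNorm (v s i) ≤ 1) {κ : Cardinal}
    (hsat : C.IsSaturated κ) (hI : Cardinal.mk I < κ) :
    ∃ f : I → C.E, (∀ i, C.opNorm (f i) ≤ 1) ∧ Good M C v U Set.univ f := by
  classical
  let α : Type := {p : Set I × (I → C.E) // Good M C v U p.1 p.2 ∧ ∀ i, C.opNorm (p.2 i) ≤ 1}
  let r : α → α → Prop := fun p q => p.1.1 ⊆ q.1.1 ∧ ∀ i ∈ p.1.1, p.1.2 i = q.1.2 i
  obtain ⟨m, hm⟩ := exists_maximal_of_chains_bounded (r := r) (by
    intro c hc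
    rcases c.eq_empty_or_nonempty with rfl | hne
    · exact ⟨⟨(∅, fun _ => 0), good_empty hE _, fun _ => by
        rw [C.opNorm_zero]; exact zero_le_one⟩, fun a ha => absurd ha (Set.notMem_empty _)⟩
    · let J : Set I := ⋃ p ∈ c, p.1.1
      let f : I → C.E := fun i => if h : ∃ p ∈ c, i ∈ p.1.1 then h.choose.1.2 i else 0
      have hrefl : ∀ p : α, r p p := fun p => ⟨Set.Subset.refl _, fun _ _ => rfl⟩
      have hf : ∀ p ∈ c, ∀ i ∈ p.1.1, p.1.2 i = f i := by
        intro p hp i hi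
        have h : ∃ p ∈ c, i ∈ p.1.1 := ⟨p, hp, hi⟩
        have h1 : f i = h.choose.1.2 i := dif_pos h
        rw [h1]
        have h2 := h.choose_spec
        by_cases hpq : p = h.choose
        · rw [← hpq]
        · rcases hc hp h2.1 hpq with h3 | h3
          · exact h3.2 i hi
          · exact (h3.2 i h2.2).symm
      have hdir : DirectedOn (fun p q : α => p.1.1 ⊆ q.1.1) c := by
        intro p hp q hq
        by_cases hpq : p = q
        · subst hpq
          exact ⟨p, hp, Set.Subset.refl _, Set.Subset.refl _⟩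
        · rcases hc hp hq hpq with h3 | h3
          · exact ⟨q, hq, h3.1, Set.Subset.refl _⟩
          · exact ⟨p, hp, Set.Subset.refl _, h3.1⟩
      refine ⟨⟨(J, f), ?_, ?_⟩, ?_⟩
      · intro φ hφ
        obtain ⟨p, hp, hp2⟩ := hdir.exists_mem_subset_of_finset_subset_biUnion hne
          (s := φ.fv_finite.toFinset) (f := fun p : α => p.1.1) (by
            rw [Set.Finite.coe_toFinset]; exact hφ)
        rw [Set.Finite.coe_toFinset] at hp2
        have h1 := p.2.1 φ hp2
        rwa [φ.ev_congr C p.1.2 f fun i hi => hf p hp i (hp2 hi)] at h1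
      · intro i
        by_cases h : ∃ p ∈ c, i ∈ p.1.1
        · have h1 : f i = h.choose.1.2 i := dif_pos h
          show C.opNorm (f i) ≤ 1
          rw [h1]
          exact h.choose.2.2 i
        · have h1 : f i = 0 := dif_neg h
          show C.opNorm (f i) ≤ 1
          rw [h1, C.opNorm_zero]
          exact zero_le_one
      · intro p hp
        exact ⟨Set.subset_biUnion_of_mem (u := fun p : α => p.1.1) hp, hf p hp⟩)
    (fun {p q s} h1 h2 => ⟨h1.1.trans h2.1, fun i hi => (h1.2 i hi).trans (h2.2 i (h1.1 hi))⟩)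
  refine ⟨m.1.2, m.2.2, ?_⟩
  have huniv : m.1.1 = Set.univ := by
    rw [Set.eq_univ_iff_forall]
    intro i
    by_contra hi
    obtain ⟨a, ha, g, hg1, hg2, hg3⟩ := good_insert hv hsat hI m.2.1 i hi
    have h1 := hm ⟨(insert i m.1.1, g), hg3, fun j => by
      by_cases hj : j = i
      · subst hj
        show C.opNorm (g j) ≤ 1
        rw [hg1]; exact ha
      · show C.opNorm (g j) ≤ 1
        rw [hg2 j hj]; exact m.2.2 j⟩ ⟨Set.subset_insert _ _, fun j hj => by
          have : j ≠ i := by rintro rfl; exact hi hj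
          exact (hg2 j this).symm⟩
    exact hi (h1.1 (Set.mem_insert _ _))
  rw [← huniv]
  exact m.2.1

end Limit

end Pool.Agent.T6.H73.ThR
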