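import Pool.Agent.T6.H73.ThR.Ext

/-!
# Permutations of the tensor factors
-/

set_option autoImplicit false

open Filter Topology

namespace Pool.Agent.T6.H73.ThR

/-! ### flips -/

section Flip

variable {A : Type} [Ring A] [StarRing A] [Algebra ℂ A]

/-- the `2 × 2` matrices -/
abbrev M2 : Type := Matrix (Fin 2) (Fin 2) ℂ

/-- matrix units -/
noncomputable def eu (a b : Fin 2) : M2 := Matrix.single a b 1

/-- the flip of two commuting copies of the `2 × 2` matrices -/
noncomputable def flip (α β : M2 →⋆ₐ[ℂ] A) : A := ∑ a : Fin 2, ∑ b : Fin 2, α (eu a b) * β (eu b a)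

theorem eu_mul (a b c d : Fin 2) : eu a b * eu c d = if b = c then eu a d else 0 := by
  unfold eu
  split_ifs with h
  · subst h; rw [Matrix.single_mul_single_same, one_mul]
  · rw [Matrix.single_mul_single_of_ne _ _ _ _ h]

theorem star_eu (a b : Fin 2) : star (eu a b) = eu b a := by
  unfold eu
  rw [Matrix.star_eq_conjTranspose, Matrix.conjTranspose_single, star_one]

theorem eu_sum : eu 0 0 + eu 1 1 = 1 := by
  ext i j
  fin_cases i <;> fin_cases j <;> simp [eu, Matrix.single]

theorem eu_expand (x : M2) : x = ∑ c : Fin 2, ∑ d : Fin 2, x c d • eu c d := by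
  ext i j
  fin_cases i <;> fin_cases j <;> simp [eu, Matrix.single, Fin.sum_univ_two]

variable {α β : M2 →⋆ₐ[ℂ] A} (hc : ∀ x y, α x * β y = β y * α x)

include hc

theorem flip_star : star (flip α β) = flip α β := by
  unfold flip
  simp only [Fin.sum_univ_two, star_add, star_mul, ← map_star, star_eu, ← hc]
  abel

theorem flip_sq : flip α β * flip α β = 1 := by
  have h : ∀ a b c d, α (eu a b) * β (eu b a) * (α (eu c d) * β (eu d c)) =
      α (eu a b * eu c d) * β (eu b a * eu d c) := by
    intro a b c d
    rw [map_mul, map_mul]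
    calc α (eu a b) * β (eu b a) * (α (eu c d) * β (eu d c))
        = α (eu a b) * (β (eu b a) * α (eu c d)) * β (eu d c) := by simp only [mul_assoc]
      _ = α (eu a b) * (α (eu c d) * β (eu b a)) * β (eu d c) := by rw [hc]
      _ = _ := by simp only [mul_assoc]
  have h2 : flip α β * flip α β = (α (eu 0 0) + α (eu 1 1)) * (β (eu 0 0) + β (eu 1 1)) := by
    unfold flip
    simp only [Fin.sum_univ_two, mul_add, add_mul, h, eu_mul]
    simp
  rw [h2, ← map_add, ← map_add, eu_sum, map_one, map_one, one_mul]

theorem flip_left (x : M2) : flip α β * α x = β x * flip α β := by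
  have h : ∀ c d, flip α β * α (eu c d) = β (eu c d) * flip α β := by
    intro c d
    have e1 : flip α β * α (eu c d) = ∑ a : Fin 2, ∑ b : Fin 2,
        α (eu a b * eu c d) * β (eu b a) := by
      unfold flip
      rw [Finset.sum_mul]
      refine Finset.sum_congr rfl fun a _ => ?_
      rw [Finset.sum_mul]
      refine Finset.sum_congr rfl fun b _ => ?_
      rw [mul_assoc, ← hc, ← mul_assoc, map_mul]
    have e2 : β (eu c d) * flip α β = ∑ a : Fin 2, ∑ b : Fin 2,
        α (eu a b) * β (eu c d * eu b a) := by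
      unfold flip
      rw [Finset.mul_sum]
      refine Finset.sum_congr rfl fun a _ => ?_
      rw [Finset.mul_sum]
      refine Finset.sum_congr rfl fun b _ => ?_
      rw [← mul_assoc, ← hc, mul_assoc, map_mul]
    rw [e1, e2]
    fin_cases c <;> fin_cases d <;> simp [Fin.sum_univ_two, eu_mul]
  rw [eu_expand x]
  simp only [Fin.sum_univ_two, map_add, map_smul, mul_add, add_mul, mul_smul_comm,
    smul_mul_assoc, h]

theorem flip_right (x : M2) : flip α β * β x = α x * flip α β := by
  have h1 := flip_left hc x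
  have h2 := flip_sq hc
  calc flip α β * β x = flip α β * (β x * flip α β) * flip α β := by
        rw [mul_assoc, mul_assoc, h2, mul_one]
    _ = (flip α β * flip α β) * α x * flip α β := by rw [← h1]; simp only [mul_assoc]
    _ = _ := by rw [h2, one_mul]

omit hc in
/-- The flip commutes with everything commuting with both copies. -/
theorem flip_comm {z : A} (h1 : ∀ x, α x * z = z * α x) (h2 : ∀ x, β x * z = z * β x) :
    flip α β * z = z * flip α β := by
  unfold flip
  rw [Finset.sum_mul, Finset.mul_sum]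
  refine Finset.sum_congr rfl fun a _ => ?_
  rw [Finset.sum_mul, Finset.mul_sum]
  refine Finset.sum_congr rfl fun b _ => ?_
  rw [mul_assoc, h2, ← mul_assoc, h1, mul_assoc]

end Flip

/-! ### finitely supported permutations -/

/-- the group of all finitely supported permutations -/
def Fs (I : Type) [DecidableEq I] : Subgroup (Equiv.Perm I) :=
  Subgroup.closure {σ | σ.IsSwap}

theorem swap_mem_Fs {I : Type} [DecidableEq I] (i j : I) : Equiv.swap i j ∈ Fs I := by
  by_cases h : i = j
  · subst h
    rw [Equiv.swap_self]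
    exact (Fs I).one_mem
  · exact Subgroup.subset_closure ⟨i, j, h, rfl⟩

/-- A finite injection extends to a finitely supported permutation. -/
theorem exists_move {I ι : Type} [DecidableEq I] [DecidableEq ι] (e e' : ι → I)
    (he : Function.Injective e) (he' : Function.Injective e') (T : Finset ι) :
    ∃ π ∈ Fs I, (∀ j ∈ T, π (e j) = e' j) ∧
      ∀ z, (∀ j ∈ T, z ≠ e j) → (∀ j ∈ T, z ≠ e' j) → π z = z := by
  induction T using Finset.induction_on with
  | empty => exact ⟨1, (Fs I).one_mem, fun j hj => absurd hj (Finset.notMem_empty j),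
      fun z _ _ => rfl⟩
  | insert j0 T hj0 ih =>
    obtain ⟨σ, hσ, h1, h2⟩ := ih
    refine ⟨Equiv.swap (σ (e j0)) (e' j0) * σ, (Fs I).mul_mem (swap_mem_Fs _ _) hσ, ?_, ?_⟩
    · intro j hj
      rw [Equiv.Perm.mul_apply]
      rcases Finset.mem_insert.1 hj with rfl | hj'
      · rw [Equiv.swap_apply_left]
      · have hne : j ≠ j0 := fun h => hj0 (h ▸ hj')
        rw [h1 j hj', Equiv.swap_apply_of_ne_of_ne]
        · rw [← h1 j hj']
          exact fun h => hne (he (σ.injective h))
        · exact fun h => hne (he' h)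
    · intro z hz hz'
      have h3 := h2 z (fun j hj => hz j (Finset.mem_insert_of_mem hj))
        (fun j hj => hz' j (Finset.mem_insert_of_mem hj))
      rw [Equiv.Perm.mul_apply, h3, Equiv.swap_apply_of_ne_of_ne]
      · intro h
        rw [← h3] at h
        exact hz j0 (Finset.mem_insert_self _ _) (σ.injective h)
      · exact hz' j0 (Finset.mem_insert_self _ _)

/-! ### the elements of the hyperfinite factor -/

/-- the matrix `diag(1, -1)` -/
noncomputable def zz : M2 := eu 0 0 - eu 1 1

/-- the matrix which exchanges the basis vectors -/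
noncomputable def xx : M2 := eu 0 1 + eu 1 0

theorem zz_star : star zz = zz := by
  unfold zz; rw [star_sub, star_eu, star_eu]

theorem zz_sq : zz * zz = 1 := by
  rw [← eu_sum]
  unfold zz
  simp [sub_mul, mul_sub, eu_mul]

theorem xx_star : star xx = xx := by
  unfold xx; rw [star_add, star_eu, star_eu, add_comm]

theorem xx_sq : xx * xx = 1 := by
  rw [← eu_sum]
  unfold xx
  simp [add_mul, mul_add, eu_mul]
  abel

theorem xx_zz : xx * zz = -(zz * xx) := by
  unfold xx zz
  simp [add_mul, mul_add, sub_mul, mul_sub, eu_mul]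
  abel

section Sys

variable {M : TVN} {j : ℕ → (M2 →⋆ₐ[ℂ] M.E)}
  (hc : ∀ k l, k ≠ l → ∀ a b, j k a * j l b = j l b * j k a)

/-- the unitary of trace zero in the site `k` -/
noncomputable def aa (j : ℕ → (M2 →⋆ₐ[ℂ] M.E)) (k : ℕ) : M.E := j k zz

theorem aa_star (k : ℕ) : star (aa j k) = aa j k := by
  unfold aa; rw [← map_star, zz_star]

theorem aa_sq (k : ℕ) : aa j k * aa j k = 1 := by
  unfold aa; rw [← map_mul, zz_sq, map_one]

theorem aa_norm (k : ℕ) : M.opNorm (aa j k) ≤ 1 :=
  M.opNorm_of_isometry (by rw [aa_star, aa_sq])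

include hc

theorem aa_trace {k l : ℕ} (hkl : k ≠ l) : M.τ (aa j k * aa j l) = 0 := by
  have h1 : star (j k xx) * j k xx = 1 := by rw [← map_star, xx_star, ← map_mul, xx_sq, map_one]
  have h2 : j k xx * star (j k xx) = 1 := by rw [← map_star, xx_star, ← map_mul, xx_sq, map_one]
  have h3 := TVN.trace_conj h1 (aa j k * aa j l)
  have h4 : j k xx * (aa j k * aa j l) * star (j k xx) = -(aa j k * aa j l) := by
    unfold aa
    rw [← map_star, xx_star]
    calc j k xx * (j k zz * j l zz) * j k xx = j k xx * j k zz * (j l zz * j k xx) := by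
          simp only [mul_assoc]
      _ = j k xx * j k zz * (j k xx * j l zz) := by rw [hc k l hkl xx zz]
      _ = j k (xx * zz * xx) * j l zz := by rw [map_mul, map_mul]; simp only [mul_assoc]
      _ = _ := by
        rw [xx_zz, neg_mul, mul_assoc, xx_sq, mul_one, map_neg, neg_mul]
  rw [h4, map_neg] at h3
  have h5 : M.τ (aa j k * aa j l) + M.τ (aa j k * aa j l) = 0 := by
    nth_rewrite 1 [← h3]
    exact neg_add_cancel _
  rw [← two_mul] at h5
  exact (mul_eq_zero.1 h5).resolve_left two_ne_zero

theorem aa_dist {k l : ℕ} (hkl : k ≠ l) :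
    M.τ (star (aa j k - aa j l) * (aa j k - aa j l)) = 2 := by
  have h1 : star (aa j k - aa j l) * (aa j k - aa j l) =
      aa j k * aa j k + aa j l * aa j l - aa j k * aa j l - aa j l * aa j k := by
    rw [star_sub, aa_star, aa_star]
    noncomm_ring
  rw [h1, aa_sq, aa_sq, map_sub, map_sub, map_add, aa_trace hc hkl, aa_trace hc hkl.symm,
    M.map_one]
  norm_num

/-- The flip of two sites. -/
theorem exists_swap (k l : ℕ) (hkl : k ≠ l) : ∃ w : M.E, star w * w = 1 ∧ w * star w = 1 ∧
    w * aa j k * star w = aa j l ∧ w * aa j l * star w = aa j k ∧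
    ∀ m, m ≠ k → m ≠ l → w * aa j m * star w = aa j m := by
  have h1 := flip_star (hc k l hkl)
  have h2 := flip_sq (hc k l hkl)
  refine ⟨flip (j k) (j l), by rw [h1, h2], by rw [h1, h2], ?_, ?_, ?_⟩
  · unfold aa
    rw [h1, flip_left (hc k l hkl), mul_assoc, h2, mul_one]
  · unfold aa
    rw [h1, flip_right (hc k l hkl), mul_assoc, h2, mul_one]
  · intro m hmk hml
    unfold aa
    rw [h1, flip_comm (fun x => hc k m hmk.symm x zz) (fun x => hc l m hml.symm x zz),
      mul_assoc, h2, mul_one]

end Sys

/-! ### the net of assignments -/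

section Net

variable {I : Type} [DecidableEq I] {M : TVN} (j : ℕ → (M2 →⋆ₐ[ℂ] M.E))

/-- The elements of the finite set `s` are mapped to different sites, all others to `0`. -/
noncomputable def vv (s : Finset I) (i : I) : M.E :=
  if h : i ∈ s then aa j (s.equivFin ⟨i, h⟩).1 else 0

variable {j}

theorem vv_norm (s : Finset I) (i : I) : M.opNorm (vv j s i) ≤ 1 := by
  unfold vv
  split_ifs
  · exact aa_norm _
  · rw [M.opNorm_zero]; exact zero_le_one

theorem vv_of_mem {s : Finset I} {i : I} (h : i ∈ s) :
    vv j s i = aa j (s.equivFin ⟨i, h⟩).1 := dif_pos h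

theorem vv_of_notMem {s : Finset I} {i : I} (h : i ∉ s) : vv j s i = 0 := dif_neg h

omit [DecidableEq I] in
theorem site_ne {s : Finset I} {i k : I} (hi : i ∈ s) (hk : k ∈ s) (h : i ≠ k) :
    (s.equivFin ⟨i, hi⟩).1 ≠ (s.equivFin ⟨k, hk⟩).1 := by
  intro h'
  have h1 := s.equivFin.injective (Fin.ext h')
  exact h (congrArg Subtype.val h1)

variable (hc : ∀ k l, k ≠ l → ∀ a b, j k a * j l b = j l b * j k a)

include hc

theorem vv_dist {s : Finset I} {i k : I} (hi : i ∈ s) (hk : k ∈ s) (h : i ≠ k) :
    M.τ (star (vv j s i - vv j s k) * (vv j s i - vv j s k)) = 2 := by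
  rw [vv_of_mem hi, vv_of_mem hk]
  exact aa_dist hc (site_ne hi hk h)

/-- Finitely supported permutations are eventually implemented by unitaries. -/
theorem eventually_perm (π : Equiv.Perm I) (hπ : π ∈ Fs I) :
    ∀ᶠ s : Finset I in atTop, ∃ w : M.E, star w * w = 1 ∧ w * star w = 1 ∧
      ∀ i, vv j s (π i) = w * vv j s i * star w := by
  induction hπ using Subgroup.closure_induction with
  | mem σ hσ =>
    obtain ⟨i, k, hik, rfl⟩ := hσ
    filter_upwards [eventually_ge_atTop ({i, k} : Finset I)] with s hs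
    have hi : i ∈ s := hs (by simp)
    have hk : k ∈ s := hs (by simp)
    obtain ⟨w, h1, h2, h3, h4, h5⟩ := exists_swap hc _ _ (site_ne hi hk hik)
    refine ⟨w, h1, h2, fun m => ?_⟩
    by_cases hmi : m = i
    · subst hmi
      rw [Equiv.swap_apply_left, vv_of_mem hi, vv_of_mem hk, h3]
    · by_cases hmk : m = k
      · subst hmk
        rw [Equiv.swap_apply_right, vv_of_mem hi, vv_of_mem hk, h4]
      · rw [Equiv.swap_apply_of_ne_of_ne hmi hmk]
        by_cases hm : m ∈ s
        · rw [vv_of_mem hm, h5 _ (site_ne hm hi hmi) (site_ne hm hk hmk)]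
        · rw [vv_of_notMem hm, mul_zero, zero_mul]
  | one => exact Eventually.of_forall fun s => ⟨1, by simp, by simp, fun i => by simp⟩
  | mul σ ρ _ _ h1 h2 =>
    filter_upwards [h1, h2] with s h1 h2
    obtain ⟨u, hu1, hu2, hu3⟩ := h1
    obtain ⟨v, hv1, hv2, hv3⟩ := h2
    refine ⟨u * v, ?_, ?_, fun i => ?_⟩
    · rw [star_mul]
      calc star v * star u * (u * v) = star v * (star u * u) * v := by simp only [mul_assoc]
        _ = 1 := by rw [hu1, mul_one, hv1]
    · rw [star_mul]
      calc u * v * (star v * star u) = u * (v * star v) * star u := by simp only [mul_assoc]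
        _ = 1 := by rw [hv2, mul_one, hu2]
    · rw [Equiv.Perm.mul_apply, hu3, hv3, star_mul]
      simp only [mul_assoc]
  | inv σ _ h1 =>
    filter_upwards [h1] with s h1
    obtain ⟨u, hu1, hu2, hu3⟩ := h1
    refine ⟨star u, by rw [star_star]; exact hu2, by rw [star_star]; exact hu1, fun i => ?_⟩
    have h2 := hu3 (σ⁻¹ i)
    rw [show σ (σ⁻¹ i) = i from Equiv.apply_symm_apply σ i] at h2
    rw [h2, star_star]
    calc vv j s (σ⁻¹ i) = (star u * u) * vv j s (σ⁻¹ i) * (star u * u) := by
          rw [hu1, one_mul, mul_one]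
      _ = _ := by simp only [mul_assoc]

end Net

end Pool.Agent.T6.H73.ThR
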