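import Pool.Agent.T6.H73.ThR.Flip

/-!
# The theory of the hyperfinite II_1 factor is not simple
-/

set_option autoImplicit false

open Filter Topology

namespace Pool.Agent.T6.H73.ThR

section Lim

variable {I : Type} [DecidableEq I] {M C : TVN} {j : ℕ → (M2 →⋆ₐ[ℂ] M.E)}
  (hc : ∀ k l, k ≠ l → ∀ a b, j k a * j l b = j l b * j k a)
  {U : Ultrafilter (Finset I)} (hU : (U : Filter (Finset I)) ≤ atTop)
  {f : I → C.E} (hf : Good M C (vv j) U Set.univ f)

include hc hU hf

/-- Permuting the variables does not change the values. -/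
theorem ev_perm (π : Equiv.Perm I) (hπ : π ∈ Fs I) (φ : Fm I) :
    φ.ev C (fun i => f (π i)) = φ.ev C f := by
  have h1 := hf (φ.ren π) (Set.subset_univ _)
  have h2 := hf φ (Set.subset_univ _)
  rw [Fm.ev_ren] at h1
  refine tendsto_nhds_unique h1 (h2.congr' ?_)
  filter_upwards [hU (eventually_perm hc π hπ)] with s hs
  obtain ⟨w, h3, h4, h5⟩ := hs
  rw [Fm.ev_ren]
  simp only [h5]
  exact (Fm.ev_conj h3 h4 φ (vv j s)).symm

omit hc in
theorem ev_of_eventually (φ : Fm I) (r : ℝ) (h : ∀ᶠ s in atTop, φ.ev M (vv j s) = r) :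
    φ.ev C f = r := by
  have h2 := hf φ (Set.subset_univ _)
  refine tendsto_nhds_unique h2 ((tendsto_const_nhds (x := r)).congr' ?_)
  filter_upwards [hU h] with s hs
  exact hs.symm

theorem dist_f {i k : I} (hik : i ≠ k) : (C.τ (star (f i - f k) * (f i - f k))).re = 2 := by
  have h := ev_of_eventually (C := C) hU hf
    (.re (.mul (.adj (.add (.var i) (.scal (-1) 0 (.var k)))) (.add (.var i)
      (.scal (-1) 0 (.var k))))) 2 (by
    filter_upwards [eventually_ge_atTop ({i, k} : Finset I)] with s hs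
    have hi : i ∈ s := hs (by simp)
    have hk : k ∈ s := hs (by simp)
    have h1 := vv_dist hc hi hk hik
    simp only [Fm.ev, Tm.ev, Rat.cast_neg, Rat.cast_one, Rat.cast_zero, zero_mul, add_zero,
      neg_smul, one_smul, ← sub_eq_add_neg]
    rw [h1]
    norm_num)
  simpa only [Fm.ev, Tm.ev, Rat.cast_neg, Rat.cast_one, Rat.cast_zero, zero_mul, add_zero,
      neg_smul, one_smul, ← sub_eq_add_neg] using h

theorem f_injective : Function.Injective f := by
  intro i k hik
  by_contra hne
  have h := dist_f hc hU hf hne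
  rw [hik, sub_self, mul_zero, map_zero] at h
  norm_num at h

end Lim

theorem eq_zero_of_re {C : TVN} (x : C.E) (h : (C.τ (star x * x)).re = 0) : x = 0 := by
  apply C.faithful
  obtain ⟨ξ, hs, hξ⟩ := C.normal
  have h1 : ∀ k, inner ℂ (ξ k) (((star x * x : C.E) : C.H →L[ℂ] C.H) (ξ k)) =
      ((‖(x : C.H →L[ℂ] C.H) (ξ k)‖ ^ 2 : ℝ) : ℂ) := by
    intro k
    have h2 : ((star x * x : C.E) : C.H →L[ℂ] C.H) (ξ k) =
        ContinuousLinearMap.adjoint (x : C.H →L[ℂ] C.H) ((x : C.H →L[ℂ] C.H) (ξ k)) := rfl
    rw [h2, ContinuousLinearMap.adjoint_inner_right, inner_self_eq_norm_sq_to_K]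
    norm_cast
  rw [hξ] at h ⊢
  simp only [h1] at h ⊢
  rw [← Complex.ofReal_tsum] at h ⊢
  rw [Complex.ofReal_re] at h
  rw [h, Complex.ofReal_zero]

/-! ### the formulas -/

/-- `Re τ(t* t)` -/
def nn {V : Type} (t : Tm V) : Fm V := .re (.mul (.adj t) t)

/-- `x p - q x` where `x` is the new variable -/
def cm {V : Type} (p q : V) : Tm (Option V) :=
  .add (.mul (.var none) (.var (some p))) (.scal (-1) 0 (.mul (.var (some q)) (.var none)))

/-- `x* x - 1` -/
def t1 {V : Type} : Tm (Option V) :=
  .add (.mul (.adj (.var none)) (.var none)) (.scal (-1) 0 .one)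

/-- `x x* - 1` -/
def t2 {V : Type} : Tm (Option V) :=
  .add (.mul (.var none) (.adj (.var none))) (.scal (-1) 0 .one)

section Formulas

variable {V : Type} (N : TVN) (a : N.E) (x : V → N.E)

theorem ev_cm (p q : V) : (cm p q).ev N (ext a x) = a * x p - x q * a := by
  simp only [cm, Tm.ev, Rat.cast_neg, Rat.cast_one, Rat.cast_zero, zero_mul, add_zero,
      neg_smul, one_smul, ← sub_eq_add_neg]
  rfl

theorem ev_t1 : (t1 : Tm (Option V)).ev N (ext a x) = star a * a - 1 := by
  simp only [t1, Tm.ev, Rat.cast_neg, Rat.cast_one, Rat.cast_zero, zero_mul, add_zero,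
      neg_smul, one_smul, ← sub_eq_add_neg]
  rfl

theorem ev_t2 : (t2 : Tm (Option V)).ev N (ext a x) = a * star a - 1 := by
  simp only [t2, Tm.ev, Rat.cast_neg, Rat.cast_one, Rat.cast_zero, zero_mul, add_zero,
      neg_smul, one_smul, ← sub_eq_add_neg]
  rfl

theorem ev_nn {W : Type} (t : Tm W) (y : W → N.E) :
    (nn t).ev N y = (N.τ (star (t.ev N y) * t.ev N y)).re := rfl

theorem nn_eq_zero {W : Type} (t : Tm W) (y : W → N.E) :
    (nn t).ev N y = 0 ↔ t.ev N y = 0 := by
  rw [ev_nn]
  constructor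
  · exact eq_zero_of_re _
  · intro h
    rw [h, mul_zero, map_zero, Complex.zero_re]

end Formulas

section Final

variable {X : Type} {M C : TVN} {j : ℕ → (M2 →⋆ₐ[ℂ] M.E)}

open Classical in
theorem exists_u (hc : ∀ k l, k ≠ l → ∀ a b, j k a * j l b = j l b * j k a)
    {U : Ultrafilter (Finset (X × Option ℕ))}
    (hU : (U : Filter (Finset (X × Option ℕ))) ≤ atTop)
    {f : X × Option ℕ → C.E} (hf : Good M C (vv j) U Set.univ f)
    {κ : Cardinal} (hsat : C.IsSaturated κ) (hI : Cardinal.mk (X × Option ℕ) < κ) :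
    ∃ u : C.E, star u * u = 1 ∧ u * star u = 1 ∧
      ∀ x, u * f (x, none) = f (x, some 0) * u := by
  let ψ : X ⊕ Bool → Fm (Option (X × Option ℕ)) := fun z =>
    match z with
    | .inl x => nn (cm (x, none) (x, some 0))
    | .inr false => nn t1
    | .inr true => nn t2
  obtain ⟨u, hu⟩ := hsat (X × Option ℕ) hI f 1 (Set.range ψ) (by
    intro F hF ε hε
    rw [← Set.image_univ] at hF
    obtain ⟨T, -, rfl⟩ := Finset.subset_set_image_iff.1 hF
    -- a permutation exchanging the sites
    obtain ⟨π, hπ, hπ1, -⟩ := exists_move (I := X × Option ℕ) (fun x : X => (x, none))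
      (fun x : X => (x, some 0)) (fun x y h => (Prod.ext_iff.1 h).1)
      (fun x y h => (Prod.ext_iff.1 h).1)
      (T.preimage Sum.inl Sum.inl_injective.injOn)
    have h0 : (Fm.inf 1 (Fm.sumAbs (T.image ψ).toList)).ev C f ≤ 0 := by
      refine le_of_tendsto (hf _ (Set.subset_univ _)) ?_
      filter_upwards [hU (eventually_perm hc π hπ)] with s hs
      obtain ⟨w, h1, h2, h3⟩ := hs
      refine (Fm.inf_sumAbs_le M 1 _ (vv j s) ⟨w, by
        simpa using M.opNorm_of_isometry h1⟩).trans ?_
      rw [Fm.ev_sumAbs]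
      apply le_of_eq
      apply List.sum_eq_zero
      intro r hr
      obtain ⟨φ, hφ, rfl⟩ := List.mem_map.1 hr
      obtain ⟨z, hz, rfl⟩ := Finset.mem_image.1 (Finset.mem_toList.1 hφ)
      rw [abs_eq_zero]
      rcases z with x | (_ | _)
      · show (nn (cm (x, none) (x, some 0))).ev M _ = 0
        rw [nn_eq_zero, ev_cm]
        have h4 := h3 (x, none)
        rw [hπ1 x (by simpa using hz)] at h4
        rw [h4, mul_assoc, h1, mul_one, sub_self]
      · show (nn t1).ev M _ = 0
        rw [nn_eq_zero, ev_t1, h1, sub_self]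
      · show (nn t2).ev M _ = 0
        rw [nn_eq_zero, ev_t2, h2, sub_self]
    obtain ⟨a, ha⟩ := Fm.exists_of_inf_lt C 1 (T.image ψ).toList f ε (h0.trans_lt hε)
    exact ⟨a, fun φ hφ => ha φ (Finset.mem_toList.2 hφ)⟩)
  refine ⟨u.1, ?_, ?_, fun x => ?_⟩
  · have h := hu (ψ (.inr false)) ⟨.inr false, rfl⟩
    change (nn t1).ev C _ = 0 at h
    rw [nn_eq_zero, ev_t1, sub_eq_zero] at h
    exact h
  · have h := hu (ψ (.inr true)) ⟨.inr true, rfl⟩
    change (nn t2).ev C _ = 0 at h
    rw [nn_eq_zero, ev_t2, sub_eq_zero] at h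
    exact h
  · have h := hu (ψ (.inl x)) ⟨.inl x, rfl⟩
    change (nn (cm (x, none) (x, some 0))).ev C _ = 0 at h
    rw [nn_eq_zero, ev_cm, sub_eq_zero] at h
    exact h

/-- A separable subset of the range of `f` is countable. -/
theorem countable_of_separable {I : Type} [DecidableEq I]
    (hc : ∀ k l, k ≠ l → ∀ a b, j k a * j l b = j l b * j k a)
    {U : Ultrafilter (Finset I)} (hU : (U : Filter (Finset I)) ≤ atTop)
    {f : I → C.E} (hf : Good M C (vv j) U Set.univ f) (A : Set C.E) (hA : A ⊆ Set.range f)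
    (hsep : C.IsSeparableSet A) : A.Countable := by
  obtain ⟨D, hDA, hD, h⟩ := hsep
  refine hD.mono fun a ha => ?_
  obtain ⟨d, hd, hd2⟩ := h a ha 1 one_pos
  obtain ⟨i, rfl⟩ := hA ha
  obtain ⟨k, rfl⟩ := hA (hDA hd)
  by_cases hik : i = k
  · rw [hik]; exact hd
  · exfalso
    have h1 := dist_f hc hU hf hik
    unfold TVN.norm2 at hd2
    rw [h1] at hd2
    have h2 : (1 : ℝ) ≤ Real.sqrt 2 := by
      rw [Real.one_le_sqrt]; norm_num
    linarith

open Classical in
/-- The main result. -/
theorem main (M C : TVN) (j : ℕ → (M2 →⋆ₐ[ℂ] M.E))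
    (hc : ∀ k l, k ≠ l → ∀ a b, j k a * j l b = j l b * j k a) (hE : C.ElemEq M)
    (hsat : C.IsSaturated (Cardinal.aleph 2)) :
    ∃ (B : Set C.E) (a : C.E), Cardinal.mk B ≤ Cardinal.aleph 1 ∧ C.opNorm a ≤ 1 ∧
      ∀ A ⊆ B, C.IsSeparableSet A → C.Divides a B A := by
  let X : Type := (Cardinal.aleph 1 : Cardinal.{0}).out
  have hX : Cardinal.mk X = Cardinal.aleph 1 := Cardinal.mk_out _
  have hIle : Cardinal.mk (X × Option ℕ) ≤ Cardinal.aleph 1 := by
    rw [Cardinal.mk_prod, Cardinal.lift_id, Cardinal.lift_id, hX]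
    exact Cardinal.mul_le_of_le (Cardinal.aleph0_le_aleph 1) le_rfl
      ((Cardinal.mk_le_aleph0).trans (Cardinal.aleph0_le_aleph 1))
  have h12 : Cardinal.aleph 1 < Cardinal.aleph 2 :=
    Cardinal.aleph_lt_aleph.2 (by exact_mod_cast (one_lt_two : (1 : ℕ) < 2))
  have hI : Cardinal.mk (X × Option ℕ) < Cardinal.aleph 2 := hIle.trans_lt h12
  let U : Ultrafilter (Finset (X × Option ℕ)) := Ultrafilter.of atTop
  have hU : (U : Filter (Finset (X × Option ℕ))) ≤ atTop := Ultrafilter.of_le _
  obtain ⟨f, hf1, hf⟩ := exists_good (U := U) hE (fun s i => vv_norm (j := j) s i) hsat hI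
  have hinj := f_injective hc hU hf
  obtain ⟨u, hu1, hu2, hu3⟩ := exists_u hc hU hf hsat hI
  let P : Set (X × Option ℕ) := {i | i.2 = none ∨ i.2 = some 0}
  refine ⟨f '' P, u, ?_, C.opNorm_of_isometry hu1, ?_⟩
  · refine Cardinal.mk_image_le.trans ?_
    exact (Cardinal.mk_set_le P).trans hIle
  · intro A hA hsep
    have hcount : A.Countable := countable_of_separable hc hU hf A
      (hA.trans (Set.image_subset_range _ _)) hsep
    -- a row outside of `A`
    obtain ⟨x, hx⟩ : ∃ x : X, f (x, some 0) ∉ A := by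
      by_contra hcon
      push Not at hcon
      have h1 : Function.Injective fun x : X => (⟨f (x, some 0), hcon x⟩ : A) := by
        intro x y h
        have h2 := hinj (Subtype.ext_iff.1 h)
        exact (Prod.ext_iff.1 h2).1
      have h2 : Countable A := hcount
      have h3 : Countable X := h1.countable
      have h4 : Cardinal.mk X ≤ Cardinal.aleph0 := Cardinal.mk_le_aleph0_iff.2 h3
      rw [hX] at h4
      exact absurd h4 (not_le.2 Cardinal.aleph0_lt_aleph_one)
    have hqB : f (x, some 0) ∈ f '' P := ⟨_, Or.inr rfl, rfl⟩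
    have hpB : f (x, none) ∈ f '' P := ⟨_, Or.inl rfl, rfl⟩
    have hqp : f (x, none) ≠ f (x, some 0) := fun h => by
      have := hinj h
      simp at this
    let b : ℕ → (f '' P : Set C.E) → C.E := fun k y =>
      if y.1 = f (x, some 0) then f (x, some k) else y.1
    refine ⟨b, fun y => ?_, ?_, ?_⟩
    · by_cases h : y.1 = f (x, some 0)
      · simp only [b, if_pos h]; exact h.symm
      · simp only [b, if_neg h]
    · intro m φ e e' he he'
      obtain ⟨π, hπ, hπ1, hπ2⟩ := exists_move (I := X × Option ℕ)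
        (fun i : Fin m => (x, some (e i))) (fun i : Fin m => (x, some (e' i)))
        (fun i k h => he.injective (Option.some_injective _ (Prod.ext_iff.1 h).2))
        (fun i k h => he'.injective (Option.some_injective _ (Prod.ext_iff.1 h).2))
        Finset.univ
      -- the elements of `B` other than `f (x, some 0)` are fixed
      have hfix : ∀ i ∈ P, f i ≠ f (x, some 0) → π i = i := by
        intro i hi hne
        have h1 : ∀ k : ℕ, i ≠ (x, some k) := by
          rintro k rfl
          rcases hi with h | h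
          · exact absurd h (by simp)
          · have : k = 0 := by simpa using h
            exact hne (by rw [this])
        exact hπ2 i (fun k _ => h1 _) (fun k _ => h1 _)
      have hch : ∀ y : (f '' P : Set C.E), ∃ i ∈ P, f i = y.1 := fun y => y.2
      choose g hgP hg using hch
      let G : ((Fin m × (f '' P : Set C.E)) ⊕ A) → X × Option ℕ := fun z =>
        match z with
        | .inl p => if p.2.1 = f (x, some 0) then (x, some (e p.1)) else g p.2
        | .inr c => g ⟨c.1, hA c.2⟩
      have e1 : (Sum.elim (fun p : Fin m × (f '' P : Set C.E) => b (e p.1) p.2)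
          (fun c : A => c.1)) = fun z => f (G z) := by
        funext z
        rcases z with p | c
        · by_cases h : p.2.1 = f (x, some 0)
          · simp only [Sum.elim_inl, b, G, if_pos h]
          · simp only [Sum.elim_inl, b, G, if_neg h]; exact (hg _).symm
        · exact (hg ⟨c.1, hA c.2⟩).symm
      have e2 : (Sum.elim (fun p : Fin m × (f '' P : Set C.E) => b (e' p.1) p.2)
          (fun c : A => c.1)) = fun z => f (π (G z)) := by
        funext z
        rcases z with p | c
        · by_cases h : p.2.1 = f (x, some 0)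
          · simp only [Sum.elim_inl, b, G, if_pos h]
            rw [hπ1 p.1 (Finset.mem_univ _)]
          · simp only [Sum.elim_inl, b, G, if_neg h]
            rw [hfix _ (hgP _) (by rw [hg]; exact h), hg]
        · show c.1 = f (π (g ⟨c.1, hA c.2⟩))
          rw [hfix _ (hgP _) (by
            rw [hg]
            intro h
            apply hx
            rw [← h]
            exact c.2), hg]
      rw [e1, e2]
      have h1 := ev_perm hc hU hf π hπ (φ.ren G)
      rw [Fm.ev_ren, Fm.ev_ren] at h1
      exact h1.symm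
    · rintro ⟨y, hy⟩
      have hk : ∀ k, y * f (x, none) = f (x, some k) * y := by
        intro k
        have h1 := hy k (nn (cm ⟨f (x, none), hpB⟩ ⟨f (x, some 0), hqB⟩))
        have h2 : (nn (cm (⟨f (x, none), hpB⟩ : (f '' P : Set C.E))
            ⟨f (x, some 0), hqB⟩)).ev C (ext u (fun y => y.1)) = 0 := by
          rw [nn_eq_zero, ev_cm, hu3, sub_self]
        rw [h2, nn_eq_zero, ev_cm, sub_eq_zero] at h1
        simp only [b, if_neg hqp, if_true] at h1
        exact h1
      have hunit : y * star y = 1 := by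
        have h1 := hy 0 (nn t2)
        have h2 : (nn (t2 : Tm (Option (f '' P : Set C.E)))).ev C
            (ext u (fun y => y.1)) = 0 := by
          rw [nn_eq_zero, ev_t2, hu2, sub_self]
        rw [h2, nn_eq_zero, ev_t2, sub_eq_zero] at h1
        exact h1
      have h3 : f (x, some 0) = f (x, some 1) := by
        calc f (x, some 0) = f (x, some 0) * y * star y := by rw [mul_assoc, hunit, mul_one]
          _ = f (x, some 1) * y * star y := by rw [← hk 0, ← hk 1]
          _ = f (x, some 1) := by rw [mul_assoc, hunit, mul_one]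
      have h4 := hinj h3
      simp at h4

end Final

end Pool.Agent.T6.H73.ThR
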