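import Mathlib

/-!
# Tracial von Neumann algebras, their continuous logic, saturation and dividing

The definitions used in the statement for MP_baa3fb_lc.
-/

set_option autoImplicit false

open scoped InnerProductSpace

namespace Pool.Agent.T6.H73.ThR

/-- The structures of the continuous logic of tracial von Neumann algebras: a set with zero, unit,
addition, multiplication, adjoint, multiplication by complex scalars, operator norm and trace. -/
structure Str : Type 1 where
  /-- the elements -/
  carrier : Type
  /-- zero -/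
  zero : carrier
  /-- the unit -/
  one : carrier
  /-- addition -/
  add : carrier → carrier → carrier
  /-- multiplication -/
  mul : carrier → carrier → carrier
  /-- the adjoint -/
  adj : carrier → carrier
  /-- scalar multiples -/
  scal : ℂ → carrier → carrier
  /-- the operator norm -/
  nrm : carrier → ℝ
  /-- the trace -/
  tr : carrier → ℂ

section

variable {H : Type} [NormedAddCommGroup H] [InnerProductSpace ℂ H] [CompleteSpace H]
  (N : VonNeumannAlgebra H)

theorem mem_zero : (0 : H →L[ℂ] H) ∈ N := N.zero_mem'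

theorem mem_one : (1 : H →L[ℂ] H) ∈ N := N.one_mem'

theorem mem_add {x y : H →L[ℂ] H} (hx : x ∈ N) (hy : y ∈ N) : x + y ∈ N := N.add_mem' hx hy

theorem mem_mul {x y : H →L[ℂ] H} (hx : x ∈ N) (hy : y ∈ N) : x * y ∈ N := N.mul_mem' hx hy

theorem mem_adj {x : H →L[ℂ] H} (hx : x ∈ N) : star x ∈ N := N.star_mem' hx

theorem mem_scal {x : H →L[ℂ] H} (c : ℂ) (hx : x ∈ N) : c • x ∈ N :=
  N.toStarSubalgebra.smul_mem hx c

/-- The structure given by a von Neumann algebra `N` on `H` and the positive normal functional
`x ↦ ∑ ⟨ξ k, x (ξ k)⟩`. -/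
noncomputable def vnStr (ξ : ℕ → H) : Str where
  carrier := {x : H →L[ℂ] H // x ∈ N}
  zero := ⟨0, mem_zero N⟩
  one := ⟨1, mem_one N⟩
  add x y := ⟨x.1 + y.1, mem_add N x.2 y.2⟩
  mul x y := ⟨x.1 * y.1, mem_mul N x.2 y.2⟩
  adj x := ⟨star x.1, mem_adj N x.2⟩
  scal c x := ⟨c • x.1, mem_scal N c x.2⟩
  nrm x := ‖x.1‖
  tr x := ∑' k, ⟪ξ k, x.1 (ξ k)⟫_ℂ

end

/-- Terms: `*`-polynomials in noncommuting variables from `V`; the scalars are the countably many
numbers `p + q i` with `p`, `q` rational. -/
inductive Tm (V : Type) : Type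
  | var (v : V) : Tm V
  | zero : Tm V
  | one : Tm V
  | add (s t : Tm V) : Tm V
  | mul (s t : Tm V) : Tm V
  | adj (s : Tm V) : Tm V
  | scal (p q : ℚ) (s : Tm V) : Tm V

/-- The value of a term when the variable `v` has the value `x v`. -/
noncomputable def Tm.val (M : Str) {V : Type} (x : V → M.carrier) : Tm V → M.carrier
  | .var v => x v
  | .zero => M.zero
  | .one => M.one
  | .add s t => M.add (s.val M x) (t.val M x)
  | .mul s t => M.mul (s.val M x) (t.val M x)
  | .adj s => M.adj (s.val M x)
  | .scal p q s => M.scal ((p : ℂ) + (q : ℂ) * Complex.I) (s.val M x)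

/-- Formulas of the continuous logic of tracial von Neumann algebras with free variables from `V`:
the real and the imaginary part of the trace of a term, continuous functions of finitely many
formulas (for example the distance `‖x - y‖₂ = (Re τ((x - y)* (x - y)))^{1/2}`), and the supremum and
the infimum over one new variable `none` which ranges over the operator norm ball of radius `r`. -/
inductive Fm : Type → Type 1
  | re {V : Type} (t : Tm V) : Fm V
  | im {V : Type} (t : Tm V) : Fm V
  | conn {V : Type} {k : ℕ} (u : C(Fin k → ℝ, ℝ)) (φ : Fin k → Fm V) : Fm V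
  | sup {V : Type} (r : ℕ) (φ : Fm (Option V)) : Fm V
  | inf {V : Type} (r : ℕ) (φ : Fm (Option V)) : Fm V

/-- The assignment which gives the new variable `none` the value `a` and all other variables `v` the
value `x v`. -/
def ext {X V : Type} (a : X) (x : V → X) (o : Option V) : X := o.elim a x

namespace Str

/-- Subtraction. -/
def sub (M : Str) (x y : M.carrier) : M.carrier := M.add x (M.scal (-1) y)

/-- The 2-norm `‖x‖₂ = tr(x* x)^{1/2}`. -/
noncomputable def norm2 (M : Str) (x : M.carrier) : ℝ := Real.sqrt (M.tr (M.mul (M.adj x) x)).re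

/-- The closed ball of radius `r` for the operator norm. -/
abbrev Ball (M : Str) (r : ℕ) : Type := {x : M.carrier // M.nrm x ≤ r}

/-- `M` is a tracial von Neumann algebra: `M` is given by a von Neumann algebra `N` on a Hilbert
space `H`, and its trace is a faithful normal tracial state (normal: a countable sum of vector
functionals). -/
def IsTVN (M : Str) : Prop :=
  ∃ (H : Type) (_ : NormedAddCommGroup H) (_ : InnerProductSpace ℂ H) (_ : CompleteSpace H)
    (N : VonNeumannAlgebra H) (ξ : ℕ → H), Summable (fun k => ‖ξ k‖ ^ 2) ∧ M = vnStr N ξ ∧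
    M.tr M.one = 1 ∧ (∀ x y, M.tr (M.mul x y) = M.tr (M.mul y x)) ∧
    ∀ x, M.tr (M.mul (M.adj x) x) = 0 → x = M.zero

/-- `e` is a system of `2 × 2` matrix units in `M`. -/
structure IsMatrixUnits (M : Str) (e : Fin 2 → Fin 2 → M.carrier) : Prop where
  mul : ∀ a b c d, M.mul (e a b) (e c d) = if b = c then e a d else M.zero
  adj : ∀ a b, M.adj (e a b) = e b a
  one : M.add (e 0 0) (e 1 1) = M.one

/-- `e 0, e 1, …` are pairwise commuting systems of `2 × 2` matrix units: the `e k` span pairwise
commuting unital copies of the algebra of the `2 × 2` matrices. -/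
def IsCommutingUnits (M : Str) (e : ℕ → Fin 2 → Fin 2 → M.carrier) : Prop :=
  (∀ k, M.IsMatrixUnits (e k)) ∧
    ∀ k l, k ≠ l → ∀ a b c d, M.mul (e k a b) (e l c d) = M.mul (e l c d) (e k a b)

/-- `R` is the hyperfinite II_1 factor, the infinite tensor product of copies of the `2 × 2`
matrices: a tracial von Neumann algebra generated by a sequence of commuting systems of `2 × 2`
matrix units (the `*`-polynomials in the matrix units are 2-norm dense in `R`). -/
def IsHyperfinite (R : Str) : Prop :=
  R.IsTVN ∧ ∃ e : ℕ → Fin 2 → Fin 2 → R.carrier, R.IsCommutingUnits e ∧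
    ∀ (z : R.carrier) (ε : ℝ), 0 < ε → ∃ t : Tm (ℕ × Fin 2 × Fin 2),
      R.norm2 (R.sub z (t.val R (fun v => e v.1 v.2.1 v.2.2))) < ε

end Str

/-- The value of a formula in `M` when its free variables `v` have the values `x v`. -/
noncomputable def Fm.val (M : Str) : {V : Type} → Fm V → (V → M.carrier) → ℝ
  | _, .re t, x => (M.tr (t.val M x)).re
  | _, .im t, x => (M.tr (t.val M x)).im
  | _, .conn u φ, x => u fun i => (φ i).val M x
  | _, .sup r φ, x => ⨆ y : M.Ball r, φ.val M (ext y.1 x)
  | _, .inf r φ, x => ⨅ y : M.Ball r, φ.val M (ext y.1 x)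

namespace Str

/-- Elementary equivalence: every sentence has the same value in `M` and in `N`; `M` is a model of
the complete theory `Th(N)`. -/
def ElemEq (M N : Str) : Prop := ∀ φ : Fm Empty, φ.val M Empty.elim = φ.val N Empty.elim

/-- `M` is `κ`-saturated: for fewer than `κ` parameters `x v`, every set `S` of conditions `φ = 0`
(with parameters `x v`) on an element of a ball of `M` which is approximately finitely satisfiable in
this ball is satisfied by an element of this ball. -/
def IsSaturated (M : Str) (κ : Cardinal) : Prop :=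
  ∀ (V : Type), Cardinal.mk V < κ → ∀ (x : V → M.carrier) (r : ℕ) (S : Set (Fm (Option V))),
    (∀ F : Finset (Fm (Option V)), (F : Set (Fm (Option V))) ⊆ S → ∀ ε : ℝ, 0 < ε →
      ∃ a : M.Ball r, ∀ φ ∈ F, |φ.val M (ext a.1 x)| ≤ ε) →
    ∃ a : M.Ball r, ∀ φ ∈ S, φ.val M (ext a.1 x) = 0

/-- The sequence `b 0, b 1, …` of tuples `b k = (b k i)_{i ∈ I}` is indiscernible over `A`: every
formula with parameters from `A` has the same value at `b (e 0), …, b (e (m - 1))` for all
`e 0 < e 1 < ⋯ < e (m - 1)`. -/
def IsIndiscernible (M : Str) {I : Type} (A : Set M.carrier) (b : ℕ → I → M.carrier) : Prop :=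
  ∀ (m : ℕ) (φ : Fm ((Fin m × I) ⊕ A)) (e e' : Fin m → ℕ), StrictMono e → StrictMono e' →
    φ.val M (Sum.elim (fun p => b (e p.1) p.2) (fun c => c.1)) =
    φ.val M (Sum.elim (fun p => b (e' p.1) p.2) (fun c => c.1))

/-- The complete type `p(x, B) = tp(a / B)` divides over `A`: there is a sequence `b 0, b 1, …` of
tuples indexed by `B`, indiscernible over `A`, where `b 0` is the tuple of the elements of `B`, such
that no `x` satisfies `p(x, b k)` for all `k`. -/
def Divides (M : Str) (a : M.carrier) (B A : Set M.carrier) : Prop :=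
  ∃ b : ℕ → B → M.carrier, (∀ y : B, b 0 y = y.1) ∧ M.IsIndiscernible A b ∧
    ¬ ∃ x : M.carrier, ∀ (k : ℕ) (φ : Fm (Option B)),
      φ.val M (ext x (b k)) = φ.val M (ext a (fun y => y.1))

/-- `A` is separable: it has a countable 2-norm dense subset. -/
def IsSeparableSet (M : Str) (A : Set M.carrier) : Prop :=
  ∃ D : Set M.carrier, D ⊆ A ∧ D.Countable ∧
    ∀ a ∈ A, ∀ ε : ℝ, 0 < ε → ∃ d ∈ D, M.norm2 (M.sub a d) < ε

end Str

end Pool.Agent.T6.H73.ThR
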